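import Pool.Agent.Lib.MP_9624c8_gt.Main

open Filter Topology

namespace Pool.Agent.Results.MP_9624c8_gt.NotCovered

/-- The compact group `X`, the product of the groups `C_2, C_3, ...` of complex roots of unity,
with the product topology (coordinate `n` is `C_(n+2)`). -/
abbrev X : Type := (n : ℕ) → rootsOfUnity (n + 2) ℂ

/-- The set `A` of points of `X` with no coordinate equal to `1`. -/
def A : Set X := {y | ∀ n, y n ≠ 1}

/-- `B` is null-finite: for some sequence `x k` tending to the identity, every `y` has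
`y * x k ∈ B` for only finitely many `k`. -/
def NullFinite (B : Set X) : Prop :=
  ∃ x : ℕ → X, Tendsto x atTop (𝓝 1) ∧ ∀ y : X, {k | y * x k ∈ B}.Finite

theorem result (B : ℕ → Set X) (hBorel : ∀ k, @MeasurableSet X (borel X) (B k))
    (hNull : ∀ k, NullFinite (B k)) : ¬ (A ⊆ ⋃ k, B k) := by
  choose x hx hfin using hNull
  have hc : ∀ n : ℕ, Nat.card (rootsOfUnity (n + 2) ℂ) = n + 2 :=
    fun n => Complex.card_rootsOfUnity (n + 2)
  have : ∀ n : ℕ, Nontrivial (rootsOfUnity (n + 2) ℂ) := fun n =>
    Finite.one_lt_card_iff_nontrivial.1 (by rw [hc]; omega)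
  refine Pool.Agent.Lib.MP_9624c8_gt.main (G := fun n => rootsOfUnity (n + 2) ℂ) ?_ B hBorel x hx
    hfin
  simp only [hc]
  exact tendsto_add_atTop_nat 2

end Pool.Agent.Results.MP_9624c8_gt.NotCovered
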